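import Mathlib

set_option autoImplicit false

/-!
# Witness sets blocking all Gabriel edges: the exact value `w(n) = n - 1`
-/

namespace Pool.Agent.Results.MP_edf47b_co.ExactValue

/-- The Euclidean plane. -/
abbrev Plane : Type := EuclideanSpace ℝ (Fin 2)

/-- The open disk whose diameter is the segment `pq`. -/
def diamDisk (p q : Plane) : Set Plane := Metric.ball (midpoint ℝ p q) (dist p q / 2)

/-- `W` is a blocking set of witnesses for the Gabriel graph of `P`: every open disk with two
distinct points of `P` as ends of a diameter contains a point of `W`. -/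
def IsBlocking (P W : Finset Plane) : Prop :=
  ∀ p ∈ P, ∀ q ∈ P, p ≠ q → ∃ w ∈ W, w ∈ diamDisk p q

/-- The least number of witnesses in a blocking set for `P`. -/
noncomputable def minBlocking (P : Finset Plane) : ℕ :=
  sInf {k : ℕ | ∃ W : Finset Plane, W.card = k ∧ IsBlocking P W}

lemma mem_diamDisk {p q w : Plane} :
    w ∈ diamDisk p q ↔ (w 0 - p 0) * (w 0 - q 0) + (w 1 - p 1) * (w 1 - q 1) < 0 := by
  have h1 : dist w (midpoint ℝ p q) ^ 2 = dist p q ^ 2 / 4 +
      ((w 0 - p 0) * (w 0 - q 0) + (w 1 - p 1) * (w 1 - q 1)) := by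
    rw [EuclideanSpace.dist_eq, EuclideanSpace.dist_eq, Real.sq_sqrt (by positivity),
      Real.sq_sqrt (by positivity)]
    simp only [Fin.sum_univ_two, Real.dist_eq, sq_abs, midpoint_eq_smul_add, PiLp.smul_apply,
      PiLp.add_apply, smul_eq_mul, invOf_eq_inv]
    ring
  have h2 : (0 : ℝ) ≤ dist p q / 2 := by positivity
  rw [diamDisk, Metric.mem_ball, ← sq_lt_sq₀ dist_nonneg h2, h1]
  constructor <;> intro h <;> nlinarith

/-- Every set of `n` points has a blocking set of at most `n - 1` points. -/
lemma exists_blocking (P : Finset Plane) (hP : P.Nonempty) :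
    ∃ W : Finset Plane, W.card = P.card - 1 ∧ IsBlocking P W := by
  classical
  -- a direction `(1, t)` that separates the points
  obtain ⟨t, ht⟩ : ∃ t : ℝ, ∀ p ∈ P, ∀ q ∈ P, p ≠ q → (p 0 - q 0) + t * (p 1 - q 1) ≠ 0 := by
    have hfin : (↑((P ×ˢ P).image fun x => -(x.1 0 - x.2 0) / (x.1 1 - x.2 1)) : Set ℝ).Finite :=
      Finset.finite_toSet _
    obtain ⟨t, ht⟩ := (Set.infinite_of_finite_compl (s :=
      (↑((P ×ˢ P).image fun x => -(x.1 0 - x.2 0) / (x.1 1 - x.2 1)) : Set ℝ)ᶜ)
        (by simpa using hfin)).nonempty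
    refine ⟨t, fun p hp q hq hpq h => ?_⟩
    by_cases h1 : p 1 - q 1 = 0
    · apply hpq
      rw [h1, mul_zero, add_zero] at h
      ext i
      fin_cases i
      · exact sub_eq_zero.1 h
      · exact sub_eq_zero.1 h1
    · apply ht
      simp only [Finset.coe_image, Set.mem_image]
      refine ⟨(p, q), by simp [hp, hq], ?_⟩
      field_simp
      linarith
  set φ : Plane → ℝ := fun p => p 0 + t * p 1 with hφ
  have hinj : ∀ p ∈ P, ∀ q ∈ P, p ≠ q → φ p ≠ φ q := by
    intro p hp q hq hpq h
    apply ht p hp q hq hpq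
    simp only [hφ] at h
    linarith
  -- the last point
  obtain ⟨m, hm, hmax⟩ := P.exists_max_image φ hP
  -- a small step
  obtain ⟨ε, hε, hεP⟩ : ∃ ε : ℝ, 0 < ε ∧ ∀ p ∈ P, ∀ q ∈ P, φ p < φ q →
      ε * (1 + t ^ 2) < φ q - φ p := by
    have hpos : (0 : ℝ) < 1 + t ^ 2 := by positivity
    set S : Finset ℝ := ((P ×ˢ P).filter fun x => φ x.1 < φ x.2).image
      fun x => (φ x.2 - φ x.1) / (1 + t ^ 2) with hS
    have hSpos : ∀ s ∈ S, 0 < s := by
      intro s hs
      simp only [hS, Finset.mem_image, Finset.mem_filter, Finset.mem_product] at hs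
      obtain ⟨x, ⟨-, hx⟩, rfl⟩ := hs
      exact div_pos (by linarith) hpos
    obtain ⟨ε, hε, hεS⟩ : ∃ ε : ℝ, 0 < ε ∧ ∀ s ∈ S, ε < s := by
      rcases S.eq_empty_or_nonempty with h | h
      · exact ⟨1, one_pos, by simp [h]⟩
      · refine ⟨S.min' h / 2, half_pos (hSpos _ (S.min'_mem h)), fun s hs => ?_⟩
        have h1 := S.min'_le s hs
        have h2 := hSpos _ (S.min'_mem h)
        linarith
    refine ⟨ε, hε, fun p hp q hq hpq => ?_⟩
    have := hεS ((φ q - φ p) / (1 + t ^ 2)) (by
      simp only [hS, Finset.mem_image, Finset.mem_filter, Finset.mem_product]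
      exact ⟨(p, q), ⟨⟨hp, hq⟩, hpq⟩, rfl⟩)
    rwa [lt_div_iff₀ hpos] at this
  set v : Plane := !₂[1, t] with hv
  have hv0 : v 0 = 1 := rfl
  have hv1 : v 1 = t := rfl
  refine ⟨(P.erase m).image fun p => p + ε • v, ?_, ?_⟩
  · rw [Finset.card_image_of_injective _ (add_left_injective _), Finset.card_erase_of_mem hm]
  · intro p hp q hq hpq
    -- the first of the two points in the order of `φ`
    have key : ∀ a ∈ P, ∀ b ∈ P, φ a < φ b →
        ∃ w ∈ (P.erase m).image (fun p => p + ε • v), (w 0 - a 0) * (w 0 - b 0) +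
          (w 1 - a 1) * (w 1 - b 1) < 0 := by
      intro a ha b hb hab
      refine ⟨a + ε • v, ?_, ?_⟩
      · refine Finset.mem_image.2 ⟨a, Finset.mem_erase.2 ⟨?_, ha⟩, rfl⟩
        rintro rfl
        exact absurd (hmax b hb) (not_le.2 hab)
      · have h := hεP a ha b hb hab
        simp only [PiLp.add_apply, PiLp.smul_apply, smul_eq_mul, hv0, hv1]
        simp only [hφ] at h
        have h3 : (a 0 + ε * 1 - a 0) * (a 0 + ε * 1 - b 0) +
            (a 1 + ε * t - a 1) * (a 1 + ε * t - b 1) =
            ε * (ε * (1 + t ^ 2) - (b 0 + t * b 1 - (a 0 + t * a 1))) := by ring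
        rw [h3]
        exact mul_neg_of_pos_of_neg hε (by linarith)
    rcases lt_or_gt_of_ne (hinj p hp q hq hpq) with h | h
    · obtain ⟨w, hw, hw2⟩ := key p hp q hq h
      exact ⟨w, hw, mem_diamDisk.2 hw2⟩
    · obtain ⟨w, hw, hw2⟩ := key q hq p hp h
      refine ⟨w, hw, mem_diamDisk.2 ?_⟩
      linarith

/-- The points `(0,0), (1,0), ..., (n-1,0)`. -/
noncomputable def linePoint (i : ℕ) : Plane := !₂[(i : ℝ), 0]

lemma linePoint_injective : Function.Injective linePoint := by
  intro i j h
  have h0 : (linePoint i) 0 = (linePoint j) 0 := by rw [h]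
  simpa [linePoint] using h0

/-- The least number of witnesses for `n` equally spaced points of a line. -/
lemma minBlocking_line (n : ℕ) (W : Finset Plane)
    (hW : IsBlocking ((Finset.range n).image linePoint) W) : n - 1 ≤ W.card := by
  classical
  have h : ∀ i : ℕ, i < n - 1 → ∃ w ∈ W, (i : ℝ) < w 0 ∧ w 0 < i + 1 := by
    intro i hi
    obtain ⟨w, hw, hw2⟩ := hW (linePoint i) (Finset.mem_image_of_mem _ (by simp; omega))
      (linePoint (i + 1)) (Finset.mem_image_of_mem _ (by simp; omega))
      (fun h => by have := linePoint_injective h; omega)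
    refine ⟨w, hw, ?_⟩
    rw [mem_diamDisk] at hw2
    simp only [linePoint, PiLp.toLp_apply, Matrix.cons_val_zero, Matrix.cons_val_one,
      Nat.cast_add, Nat.cast_one, sub_zero] at hw2
    constructor <;> nlinarith [mul_self_nonneg (w 1), sq_nonneg (w 0 - i), sq_nonneg (w 0 - i - 1)]
  choose! f hfW hf1 hf2 using h
  have hinj : Set.InjOn f (Finset.range (n - 1) : Set ℕ) := by
    intro i hi j hj hij
    simp only [Finset.coe_range, Set.mem_Iio] at hi hj
    have a1 := hf1 i hi
    have a2 := hf2 i hi
    have b1 := hf1 j hj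
    have b2 := hf2 j hj
    rw [hij] at a1 a2
    have c1 : (i : ℝ) < j + 1 := by linarith
    have c2 : (j : ℝ) < i + 1 := by linarith
    have d1 : i < j + 1 := by exact_mod_cast c1
    have d2 : j < i + 1 := by exact_mod_cast c2
    omega
  calc n - 1 = (Finset.range (n - 1)).card := by simp
    _ = ((Finset.range (n - 1)).image f).card := (Finset.card_image_of_injOn hinj).symm
    _ ≤ W.card := by
        apply Finset.card_le_card
        intro w hw
        obtain ⟨i, hi, rfl⟩ := Finset.mem_image.1 hw
        exact hfW i (by simpa using hi)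

/-- `w(n) = n - 1`: for every `n ≥ 1` the largest value of the least number of witnesses blocking
all Gabriel edges, over all sets of `n` points of the plane, is `n - 1`. -/
theorem result (n : ℕ) (hn : 1 ≤ n) :
    IsGreatest {k : ℕ | ∃ P : Finset Plane, P.card = n ∧ minBlocking P = k} (n - 1) := by
  classical
  constructor
  · refine ⟨(Finset.range n).image linePoint, ?_, ?_⟩
    · rw [Finset.card_image_of_injective _ linePoint_injective, Finset.card_range]
    · apply le_antisymm
      · obtain ⟨W, hW, hW2⟩ := exists_blocking ((Finset.range n).image linePoint)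
          ⟨linePoint 0, Finset.mem_image_of_mem _ (by simp; omega)⟩
        rw [Finset.card_image_of_injective _ linePoint_injective, Finset.card_range] at hW
        exact Nat.sInf_le ⟨W, hW, hW2⟩
      · apply le_csInf
        · obtain ⟨W, hW, hW2⟩ := exists_blocking ((Finset.range n).image linePoint)
            ⟨linePoint 0, Finset.mem_image_of_mem _ (by simp; omega)⟩
          exact ⟨_, W, rfl, hW2⟩
        · rintro k ⟨W, rfl, hW⟩
          exact minBlocking_line n W hW
  · rintro k ⟨P, hP, rfl⟩
    have hne : P.Nonempty := by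
      rw [← Finset.card_pos, hP]
      omega
    obtain ⟨W, hW, hW2⟩ := exists_blocking P hne
    rw [hP] at hW
    exact Nat.sInf_le ⟨W, hW, hW2⟩

end Pool.Agent.Results.MP_edf47b_co.ExactValue
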